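import Pool.Agent.W2helper56.PK.Stm

/-!
# Pieces E2 and E3
-/

set_option autoImplicit false

namespace Pool.Agent.W2helper99.PK

open Pool.Agent.NPC Pool.Agent.H622R2 Pool.Agent.H620R2.Gauge Pool.Agent.W2helper56.PK

/-- recursion on the length, with the parsing of the header -/
noncomputable def recE (F : ℕ → ℕ → ℕ → Oracle → List Bool → Bool) (z : List Bool) : Bool :=
  F (unpair (unpair z).1).1.length (unpair (unpair (unpair z).1).2).1.length
    (unpair (unpair (unpair z).1).2).2.length
    (fun u => if _h : u.length < (unpair (unpair (unpair z).1).2).2.length ∧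
      u.length < z.length then recE F u else false) (unpair z).2
termination_by z.length
decreasing_by exact _h.2

theorem recE_eq (F : ℕ → ℕ → ℕ → Oracle → List Bool → Bool) (i n m : ℕ) (z y : List Bool)
    (hz : unpair z = (hdr i n m, y)) (hlen : m < z.length) :
    recE F z = F i n m (fun u => if u.length < m then recE F u else false) y := by
  have h1 : unpair (hdr i n m) = (un i, pairBits (un n) (un m)) := unpair_pairBits _ _
  have h2 : unpair (pairBits (un n) (un m)) = (un n, un m) := unpair_pairBits _ _
  rw [recE, hz]
  dsimp only
  rw [h1]
  dsimp only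
  rw [h2]
  dsimp only
  rw [List.length_replicate, List.length_replicate, List.length_replicate]
  refine congrArg (fun G => F i n m G y) ?_
  funext u
  by_cases hu : u.length < m
  · rw [dif_pos ⟨hu, hu.trans hlen⟩, if_pos hu]
  · rw [dif_neg (fun h => hu h.1), if_neg hu]

theorem p_rec : P_rec := by
  intro F
  refine ⟨recE F, fun i n m y => recE_eq F i n m _ y (unpair_pairBits _ _) ?_⟩
  rw [length_pairBits, hdr, length_pairBits, length_pairBits, List.length_replicate,
    List.length_replicate, List.length_replicate]
  omega

/-- all strings with less than `t` letters -/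
def strs : ℕ → List (List Bool)
  | 0 => []
  | t + 1 => [] :: ((strs t).map (List.cons true) ++ (strs t).map (List.cons false))

theorem length_strs : ∀ t, (strs t).length + 1 = 2 ^ t
  | 0 => rfl
  | t + 1 => by
    have := length_strs t
    simp only [strs, List.length_cons, List.length_append, List.length_map]
    omega

theorem mem_strs : ∀ (t : ℕ) (z : List Bool), z ∈ strs t ↔ z.length < t
  | 0, z => by simp [strs]
  | t + 1, [] => by simp [strs]
  | t + 1, b :: z => by
    have := mem_strs t z
    cases b <;> simp [strs, this]

/-- ask the questions of a list, the result is the table -/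
def tab {Z : Type} [DecidableEq Z] : List Z → DT Z (Z → Bool)
  | [] => DT.ret fun _ => false
  | z :: l => DT.ask z fun b => (tab l).bind fun f => DT.ret fun y => if y = z then b else f y

theorem tab_le {Z : Type} [DecidableEq Z] : ∀ l : List Z, (tab l).Le l.length
  | [] => DT.le_ret _ _
  | _ :: l => fun _ => DT.le_bind (m := 0) (fun _ => DT.le_ret _ _) (tab_le l)

theorem tab_all {Z : Type} [DecidableEq Z] {P : Z → Prop} : ∀ l : List Z, (∀ z ∈ l, P z) →
    (tab l).All P
  | [], _ => trivial
  | z :: l, h => ⟨h z (by simp), fun _ => DT.all_bind (fun _ => DT.all_ret _ _)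
      (tab_all l fun y hy => h y (by simp [hy]))⟩

theorem tab_run {Z : Type} [DecidableEq Z] (O : Z → Bool) : ∀ l : List Z,
    (tab l).run O = fun y => if y ∈ l then O y else false
  | [] => by funext y; simp [tab]
  | z :: l => by
    change ((tab l).bind fun f => DT.ret fun y => if y = z then O z else f y).run O = _
    rw [DT.run_bind, tab_run O l]
    funext y
    simp only [DT.run_ret, List.mem_cons]
    by_cases h : y = z
    · simp [h]
    · simp [h]

theorem p_tab : P_tab := by
  intro t
  refine ⟨tab (strs t), (tab_le _).mono ?_, tab_all _ fun z hz => (mem_strs t z).1 hz,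
    fun O => ?_⟩
  · have := length_strs t
    omega
  · rw [tab_run]
    funext z
    simp only [mem_strs]

end Pool.Agent.W2helper99.PK
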